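import Pool.Agent.K6.H76.Cop.Main

/-!
# The slope of the copolymer critical curve is never `1/(1+α)`

The model (inter-arrival law, signed renewal, charges, partition function, free energy, critical
curve) is defined in `Pool/Agent/K6/H76/Cop/Defs.lean`.
-/

set_option autoImplicit false

namespace Pool.Agent.Results.MP_65efe8_pr.SlopeStrict

open MeasureTheory ProbabilityTheory Filter Topology Pool.Agent.K6.H76.Cop

/-- **For every `α > 0` the slope is different from `1/(1+α)`.** For every `α > 0`, every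
inter-arrival law `K(n) ~ c_K n^{-(1+α)}` and every law of the charges, there is `δ > 0` with
`h_c(lam) / lam ≥ 1/(1+α) + δ` for all small `lam > 0`; in particular `h_c(lam) / lam` does not
tend to `1/(1+α)` as `lam` decreases to `0`. -/
theorem result {α : ℝ} (hα : 0 < α) {K : ℕ → ℝ} (hK : IsInterArrivalLaw α K)
    {T : Type*} [MeasurableSpace T] {P : Measure T} {ξ : ℕ → T → ℕ} {ε : ℕ → T → ℤ}
    (hR : IsSignedRenewal K ξ ε P)
    {Ω : Type*} [MeasurableSpace Ω] {μ : Measure Ω} {X : ℕ → Ω → ℝ} (hX : IsCharges X μ) :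
    (∃ δ > 0, ∀ᶠ lam in 𝓝[>] (0 : ℝ),
      1 / (1 + α) + δ ≤ criticalCurve ξ ε P X μ lam / lam) ∧
    ¬ Tendsto (fun lam => criticalCurve ξ ε P X μ lam / lam) (𝓝[>] 0) (𝓝 (1 / (1 + α))) := by
  obtain ⟨δ, hδ, h⟩ := main hα hK hR hX
  have h1 : ∀ᶠ lam in 𝓝[>] (0 : ℝ), 1 / (1 + α) + δ ≤ criticalCurve ξ ε P X μ lam / lam := by
    filter_upwards [h, self_mem_nhdsWithin] with lam h2 h3
    rwa [le_div_iff₀ h3]
  refine ⟨⟨δ, hδ, h1⟩, fun h2 => ?_⟩
  have h3 := h2.eventually (gt_mem_nhds (by linarith : 1 / (1 + α) < 1 / (1 + α) + δ))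
  obtain ⟨lam, h4, h5⟩ := (h1.and h3).exists
  linarith

end Pool.Agent.Results.MP_65efe8_pr.SlopeStrict
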